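import Pool.Agent.W353.SP.NDefs

/-!
# The Tauberian averages of the products with the members of a family: definitions

`K` is a number field.  The definitions of `cone` (`q - 1` times the number of points over a finite field
with `q` elements) and of the eigenvalues of the Frobenius (`IsFrobenius`) are in
`Pool.Agent.W353.EF.Defs`, those of `IsTrace` and `average` in `Pool.Agent.W353.SP.NDefs`.
-/

set_option autoImplicit false

namespace Pool.Agent.R461.TB

open NumberField IsDedekindDomain Filter Topology
open Pool.Agent.W353.EF (IsFrobenius cone)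
open Pool.Agent.W353.SP (IsTrace average)

/-- A geometrically connected smooth projective variety `X` of dimension `d ≥ 1` over `K`, given by a
set of homogeneous polynomials in `l` variables: `N₁`, `N₂` are the first and second Betti numbers, and
`a v`, `b v` are, for the primes `v` outside the finite set `R` of the primes of bad reduction, the
traces of the geometric Frobenius on `H¹(X)` and `H²(X)`; it acts on `H⁰(X)` with the single
eigenvalue `1`. -/
structure Var (K : Type) [Field K] [NumberField K] where
  l : ℕ
  X : Set (MvPolynomial (Fin l) (𝓞 K))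
  d : ℕ
  N₁ : ℕ
  N₂ : ℕ
  R : Finset (HeightOneSpectrum (𝓞 K))
  a : HeightOneSpectrum (𝓞 K) → ℂ
  b : HeightOneSpectrum (𝓞 K) → ℂ
  one_le : 1 ≤ d
  connected : IsTrace X d 0 1 R fun _ => 1
  trace₁ : IsTrace X d 1 N₁ R a
  trace₂ : IsTrace X d 2 N₂ R b

section
variable {K : Type} [Field K] [NumberField K]

/-- `Z` is the product of `X` and `Y`, in any embedding into a projective space: its dimension is the
sum of the dimensions, and over all finite extensions of the residue fields of the primes `v ∉ R_Z`
the number of the points of `Z` is the product of the numbers of the points of `X` and `Y`. -/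
def IsProduct (Z X Y : Var K) : Prop :=
  Z.d = X.d + Y.d ∧ ∀ v, v ∉ Z.R → ∀ (κ : Type) [Field κ] [Finite κ] (φ : 𝓞 K →+* κ),
    RingHom.ker φ = v.asIdeal → (Nat.card κ - 1) * cone Z.X φ = cone X.X φ * cone Y.X φ

/-- The average `T⁻¹ ∑_{v ∉ R, q_v ≤ T} b_v(X) log(q_v) / q_v` of the question. -/
noncomputable def tateAverage (X : Var K) (T : ℕ) : ℝ := average 1 X.R X.b T

/-- The difference of the averages for `Z` and for `X` and `Y`.  If `Z = X × Y`, then by the conjecture it
tends to `rank NS(X × Y / K) - rank NS(X / K) - rank NS(Y / K)`, the rank of the group of the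
homomorphisms over `K` from the Albanese variety of `Y` to the Picard variety of `X`. -/
noncomputable def excess (Z X Y : Var K) (T : ℕ) : ℝ :=
  tateAverage Z T - tateAverage X T - tateAverage Y T

open Classical in
/-- The conjecture holds for the parts `H¹(Y_b) ⊗ H¹(Y_b')` of `H²(Y_b × Y_b')`, and there are no
homomorphisms between the Albanese varieties of different `Y_b`: for `b ≠ b'` the averages
`T⁻¹ ∑ a_v(Y_b) a_v(Y_b') log(q_v) / q_v` tend to `0`, and for `b = b'` to `e b > 0`. -/
def IsFamily {κ : Type} (Y : κ → Var K) (e : κ → ℝ) : Prop :=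
  (∀ b, 0 < e b ∧
    Tendsto (average 1 (Y b).R fun v => (Y b).a v * (Y b).a v) atTop (𝓝 (e b))) ∧
  ∀ b b', b ≠ b' →
    Tendsto (average 1 ((Y b).R ∪ (Y b').R) fun v => (Y b).a v * (Y b').a v) atTop (𝓝 0)

/-- `H¹(X)` contains the direct sum of the `n b` copies of `H¹(Y b)`: outside the finite set `R'` of
primes, the eigenvalues of the Frobenius on `H¹(Y b)`, each taken `n b` times, are among those on
`H¹(X)`. -/
def Contains (X : Var K) {κ : Type} (Y : κ → Var K) (n : κ →₀ ℕ)
    (R' : Finset (HeightOneSpectrum (𝓞 K))) : Prop :=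
  ∀ v, v ∉ R' → ∃ (α : Fin X.N₁ → ℂ) (γ : ∀ b, Fin (Y b).N₁ → ℂ),
    IsFrobenius X.X X.d 1 v α ∧
    (∀ b ∈ n.support, IsFrobenius (Y b).X (Y b).d 1 v (γ b)) ∧
    ∑ b ∈ n.support, n b • Finset.univ.val.map (γ b) ≤ Finset.univ.val.map α

/-- The dimension of the complement of the copies of the `H¹(Y b)` in `H¹(X)`. -/
noncomputable def rest (X : Var K) {κ : Type} (Y : κ → Var K) (n : κ →₀ ℕ) : ℝ :=
  X.N₁ - ∑ b ∈ n.support, (n b : ℝ) * (Y b).N₁

end

end Pool.Agent.R461.TB
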