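import Pool.Agent.W353.SP.NMain
import Pool.Agent.R461.TB.Defs

/-! The formula of Künneth for the second cohomology, from the numbers of points. -/

set_option autoImplicit false

namespace Pool.Agent.R461.TB

open Complex Filter Topology NumberField IsDedekindDomain
open Pool.Agent.W353.EF (IsFrobenius cone)
open Pool.Agent.W353.SP
open Pool.Agent.W353.PV (mult_unique exists_ext one_lt_norm)

/-- sums of products over the antidiagonals -/
theorem conv {A B n : ℕ} (hn : A + B ≤ n + 1) (a b : ℕ → ℂ) (ha : ∀ i, A ≤ i → a i = 0)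
    (hb : ∀ i, B ≤ i → b i = 0) :
    ∑ k ∈ Finset.range n, ∑ p ∈ Finset.HasAntidiagonal.antidiagonal k, a p.1 * b p.2 =
      (∑ i ∈ Finset.range A, a i) * ∑ j ∈ Finset.range B, b j := by
  classical
  rw [Finset.sum_mul_sum, ← Finset.sum_product']
  have hmap : ∀ p ∈ Finset.range A ×ˢ Finset.range B, p.1 + p.2 ∈ Finset.range n := by
    intro p hp
    rw [Finset.mem_product, Finset.mem_range, Finset.mem_range] at hp
    rw [Finset.mem_range]
    omega
  rw [← Finset.sum_fiberwise_of_maps_to hmap]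
  refine Finset.sum_congr rfl fun k _ => ?_
  refine (Finset.sum_subset ?_ ?_).symm
  · intro p hp
    rw [Finset.HasAntidiagonal.mem_antidiagonal]
    exact (Finset.mem_filter.1 hp).2
  · intro p hp hp'
    rw [Finset.HasAntidiagonal.mem_antidiagonal] at hp
    rw [Finset.mem_filter, Finset.mem_product, Finset.mem_range, Finset.mem_range] at hp'
    by_cases h1 : A ≤ p.1
    · rw [ha _ h1, zero_mul]
    · by_cases h2 : B ≤ p.2
      · rw [hb _ h2, mul_zero]
      · exact absurd ⟨⟨by omega, by omega⟩, hp⟩ hp'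

/-- the products of the members of two multisets -/
noncomputable def tens (s t : Multiset ℂ) : Multiset ℂ := s.bind fun x => t.map fun y => x * y

theorem tens_pow (s t : Multiset ℂ) (e : ℕ) :
    ((tens s t).map fun z => z ^ e).sum =
      (s.map fun z => z ^ e).sum * (t.map fun z => z ^ e).sum := by
  unfold tens
  rw [Multiset.map_bind, Multiset.sum_bind]
  have h1 : ∀ x : ℂ, ((t.map fun y => x * y).map fun z => z ^ e).sum =
      x ^ e * (t.map fun z => z ^ e).sum := by
    intro x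
    rw [Multiset.map_map, ← Multiset.sum_map_mul_left]
    congr 1
    refine Multiset.map_congr rfl fun y _ => ?_
    rw [Function.comp_apply, mul_pow]
  simp only [h1]
  rw [Multiset.sum_map_mul_right]

theorem tens_sum (s t : Multiset ℂ) : (tens s t).sum = s.sum * t.sum := by
  have h1 := tens_pow s t 1
  simpa using h1

theorem mem_tens {s t : Multiset ℂ} {z : ℂ} (h : z ∈ tens s t) :
    ∃ x ∈ s, ∃ y ∈ t, z = x * y := by
  unfold tens at h
  obtain ⟨x, hx, h2⟩ := Multiset.mem_bind.1 h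
  obtain ⟨y, hy, rfl⟩ := Multiset.mem_map.1 h2
  exact ⟨x, hx, y, hy, rfl⟩

section
variable {K : Type} [Field K] [NumberField K]

/-- the system of all eigenvalues of a variety -/
structure Sys (V : Var K) (v : HeightOneSpectrum (𝓞 K)) (β : ℕ → Multiset ℂ) : Prop where
  norm : ∀ k, ∀ z ∈ β k, ‖z‖ = (Ideal.absNorm v.asIdeal : ℝ) ^ ((k : ℝ) / 2)
  count : ∀ (κ : Type) [Field κ] [Finite κ] (φ : 𝓞 K →+* κ) (e : ℕ), RingHom.ker φ = v.asIdeal →
      Nat.card κ = Ideal.absNorm v.asIdeal ^ e →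
      (cone V.X φ : ℂ) = ((Ideal.absNorm v.asIdeal : ℂ) ^ e - 1) *
          ∑ k ∈ Finset.range (2 * V.d + 1), (-1 : ℂ) ^ k * ((β k).map (fun z => z ^ e)).sum

theorem exists_sys (V : Var K) {v : HeightOneSpectrum (𝓞 K)} {i N : ℕ} {α : Fin N → ℂ}
    (h : IsFrobenius V.X V.d i v α) : ∃ β, Sys V v β ∧ β i = Finset.univ.val.map α := by
  obtain ⟨β, h1, h2, h3⟩ := h
  refine ⟨β, ⟨h2, fun κ _ _ φ e hk hc => ?_⟩, h1⟩
  refine Eq.trans (congrArg (fun ψ : 𝓞 K →+* κ => ((cone V.X ψ : ℕ) : ℂ)) ?_) (h3 κ φ e hk hc)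
  refine RingHom.ext fun x => ?_
  rw [RingHom.comp_apply]
  congr 1

theorem pow_sub_ne (v : HeightOneSpectrum (𝓞 K)) {e : ℕ} (he : 1 ≤ e) :
    ((Ideal.absNorm v.asIdeal : ℂ) ^ e - 1) ≠ 0 := by
  have h4 : (1 : ℝ) < (Ideal.absNorm v.asIdeal : ℝ) ^ e := one_lt_pow₀ (one_lt_norm v) (by omega)
  intro h5
  have h6 : ((Ideal.absNorm v.asIdeal : ℂ) ^ e) = 1 := sub_eq_zero.1 h5
  have h7 : ((Ideal.absNorm v.asIdeal : ℝ) ^ e) = 1 := by exact_mod_cast h6
  linarith

theorem Sys.unique {V : Var K} {v : HeightOneSpectrum (𝓞 K)} {β β' : ℕ → Multiset ℂ}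
    (h : Sys V v β) (h' : Sys V v β') {i : ℕ} (hi : i ≤ 2 * V.d) : β i = β' i := by
  refine mult_unique (D := 2 * V.d + 1) (one_lt_norm v) h.norm h'.norm (fun e he => ?_) (by omega)
  obtain ⟨κ, _, _, φ, hk, hc⟩ := exists_ext v e he
  have e1 := h.count κ φ e hk hc
  rw [h'.count κ φ e hk hc] at e1
  exact (mul_left_cancel₀ (pow_sub_ne v he) e1).symm

theorem sum_univ {N : ℕ} (α : Fin N → ℂ) : (Finset.univ.val.map α).sum = ∑ j, α j := rfl

theorem exists_all (V : Var K) {v : HeightOneSpectrum (𝓞 K)} (hv : v ∉ V.R) :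
    ∃ β, Sys V v β ∧ (β 0).sum = 1 ∧ (β 1).sum = V.a v ∧ (β 2).sum = V.b v := by
  have hd := V.one_le
  obtain ⟨α₀, h0, e0⟩ := V.connected v hv
  obtain ⟨α₁, h1, e1⟩ := V.trace₁ v hv
  obtain ⟨α₂, h2, e2⟩ := V.trace₂ v hv
  obtain ⟨β₀, s0, g0⟩ := exists_sys V h0
  obtain ⟨β₁, s1, g1⟩ := exists_sys V h1
  obtain ⟨β₂, s2, g2⟩ := exists_sys V h2
  refine ⟨β₂, s2, ?_, ?_, ?_⟩
  · rw [s2.unique s0 (by omega), g0, sum_univ]
    exact e0.symm
  · rw [s2.unique s1 (by omega), g1, sum_univ, e1]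
  · rw [g2, sum_univ, e2]

/-- **The formula of Künneth.** -/
theorem kunneth {Z X Y : Var K} (h : IsProduct Z X Y) {v : HeightOneSpectrum (𝓞 K)}
    (hZ : v ∉ Z.R) (hX : v ∉ X.R) (hY : v ∉ Y.R) :
    Z.b v = X.b v + X.a v * Y.a v + Y.b v := by
  classical
  obtain ⟨hd, hc⟩ := h
  have hdX := X.one_le
  have hdY := Y.one_le
  obtain ⟨β, s, h0, h1, h2⟩ := exists_all X hX
  obtain ⟨γ, t, k0, k1, k2⟩ := exists_all Y hY
  obtain ⟨ζ, u, _, _, l2⟩ := exists_all Z hZ
  set β' : ℕ → Multiset ℂ := fun k => if k ≤ 2 * X.d then β k else 0 with hβ'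
  set γ' : ℕ → Multiset ℂ := fun k => if k ≤ 2 * Y.d then γ k else 0 with hγ'
  set G : ℕ → Multiset ℂ := fun k =>
    (Finset.HasAntidiagonal.antidiagonal k).val.bind fun p => tens (β' p.1) (γ' p.2) with hG
  have hβ'n : ∀ k, ∀ z ∈ β' k, ‖z‖ = (Ideal.absNorm v.asIdeal : ℝ) ^ ((k : ℝ) / 2) := by
    intro k z hz
    rw [hβ'] at hz
    simp only at hz
    split_ifs at hz
    · exact s.norm k z hz
    · exact absurd hz (Multiset.notMem_zero z)
  have hγ'n : ∀ k, ∀ z ∈ γ' k, ‖z‖ = (Ideal.absNorm v.asIdeal : ℝ) ^ ((k : ℝ) / 2) := by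
    intro k z hz
    rw [hγ'] at hz
    simp only at hz
    split_ifs at hz
    · exact t.norm k z hz
    · exact absurd hz (Multiset.notMem_zero z)
  have hq : (0 : ℝ) < (Ideal.absNorm v.asIdeal : ℝ) := by
    have := one_lt_norm v
    linarith
  have hGp : ∀ k e, ((G k).map fun z => z ^ e).sum = ∑ p ∈ Finset.HasAntidiagonal.antidiagonal k,
      ((β' p.1).map fun z => z ^ e).sum * ((γ' p.2).map fun z => z ^ e).sum := by
    intro k e
    rw [hG]
    simp only
    rw [Multiset.map_bind, Multiset.sum_bind]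
    simp only [tens_pow]
    rfl
  have hGS : Sys Z v G := by
    refine ⟨fun k z hz => ?_, fun κ _ _ φ e hk hcard => ?_⟩
    · rw [hG] at hz
      simp only at hz
      obtain ⟨p, hp, hz⟩ := Multiset.mem_bind.1 hz
      have hp' : p.1 + p.2 = k := Finset.HasAntidiagonal.mem_antidiagonal.1 hp
      obtain ⟨x, hx, y, hy, rfl⟩ := mem_tens hz
      rw [norm_mul, hβ'n _ x hx, hγ'n _ y hy, ← Real.rpow_add hq]
      congr 1
      have : ((p.1 : ℝ) + (p.2 : ℝ)) = k := by exact_mod_cast hp'
      linarith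
    · rcases Nat.eq_zero_or_pos e with rfl | he
      · -- a field with one element
        exfalso
        rw [pow_zero] at hcard
        have : 1 < Nat.card κ := Finite.one_lt_card
        omega
      have e1 := hc v hZ κ φ hk
      have e2 := s.count κ φ e hk hcard
      have e3 := t.count κ φ e hk hcard
      have hqe := pow_sub_ne v he
      have hcast : ((Nat.card κ - 1 : ℕ) : ℂ) = (Ideal.absNorm v.asIdeal : ℂ) ^ e - 1 := by
        have h5 : 1 ≤ Nat.card κ := Nat.card_pos
        rw [Nat.cast_sub h5, hcard]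
        push_cast
        ring
      have e4 : ((Ideal.absNorm v.asIdeal : ℂ) ^ e - 1) * (cone Z.X φ : ℂ) =
          (cone X.X φ : ℂ) * (cone Y.X φ : ℂ) := by
        rw [← hcast]
        exact_mod_cast e1
      rw [e2, e3] at e4
      refine mul_left_cancel₀ hqe (e4.trans ?_)
      have e5 : ∑ k ∈ Finset.range (2 * Z.d + 1), (-1 : ℂ) ^ k *
          ((G k).map (fun z => z ^ e)).sum =
          (∑ k ∈ Finset.range (2 * X.d + 1), (-1 : ℂ) ^ k * ((β' k).map (fun z => z ^ e)).sum) *
          ∑ k ∈ Finset.range (2 * Y.d + 1), (-1 : ℂ) ^ k * ((γ' k).map (fun z => z ^ e)).sum := by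
        rw [← conv (A := 2 * X.d + 1) (B := 2 * Y.d + 1) (n := 2 * Z.d + 1) (by omega)
          (fun k => (-1 : ℂ) ^ k * ((β' k).map (fun z => z ^ e)).sum)
          (fun k => (-1 : ℂ) ^ k * ((γ' k).map (fun z => z ^ e)).sum)]
        · refine Finset.sum_congr rfl fun k _ => ?_
          rw [hGp, Finset.mul_sum]
          refine Finset.sum_congr rfl fun p hp => ?_
          rw [← Finset.HasAntidiagonal.mem_antidiagonal.1 hp, pow_add]
          ring
        · intro i hi
          have : β' i = 0 := by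
            rw [hβ']
            simp only
            rw [if_neg (by omega)]
          rw [this, Multiset.map_zero, Multiset.sum_zero, mul_zero]
        · intro i hi
          have : γ' i = 0 := by
            rw [hγ']
            simp only
            rw [if_neg (by omega)]
          rw [this, Multiset.map_zero, Multiset.sum_zero, mul_zero]
      have e6 : ∀ k ∈ Finset.range (2 * X.d + 1), (-1 : ℂ) ^ k *
          ((β' k).map (fun z => z ^ e)).sum = (-1 : ℂ) ^ k * ((β k).map (fun z => z ^ e)).sum := by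
        intro k hk
        rw [Finset.mem_range] at hk
        rw [hβ']
        simp only
        rw [if_pos (by omega)]
      have e7 : ∀ k ∈ Finset.range (2 * Y.d + 1), (-1 : ℂ) ^ k *
          ((γ' k).map (fun z => z ^ e)).sum = (-1 : ℂ) ^ k * ((γ k).map (fun z => z ^ e)).sum := by
        intro k hk
        rw [Finset.mem_range] at hk
        rw [hγ']
        simp only
        rw [if_pos (by omega)]
      rw [e5, Finset.sum_congr rfl e6, Finset.sum_congr rfl e7]
      ring
  have hu := u.unique hGS (i := 2) (by omega)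
  rw [← l2, hu]
  have h5 : (G 2).sum = ∑ p ∈ Finset.HasAntidiagonal.antidiagonal 2, (β' p.1).sum * (γ' p.2).sum := by
    have h6 := hGp 2 1
    simpa using h6
  have f0 : β' 0 = β 0 := by rw [hβ']; simp
  have f1 : β' 1 = β 1 := by rw [hβ']; simp only; rw [if_pos (by omega)]
  have f2 : β' 2 = β 2 := by rw [hβ']; simp only; rw [if_pos (by omega)]
  have g0 : γ' 0 = γ 0 := by rw [hγ']; simp
  have g1 : γ' 1 = γ 1 := by rw [hγ']; simp only; rw [if_pos (by omega)]
  have g2 : γ' 2 = γ 2 := by rw [hγ']; simp only; rw [if_pos (by omega)]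
  rw [h5, Finset.Nat.antidiagonal_succ, Finset.sum_cons, Finset.sum_map,
    Finset.Nat.antidiagonal_succ, Finset.sum_cons, Finset.sum_map,
    Finset.Nat.antidiagonal_zero, Finset.sum_singleton]
  simp only [Function.Embedding.prodMap, Function.Embedding.coeFn_mk, Prod.map,
    Function.Embedding.refl_apply]
  show (β' 0).sum * (γ' 2).sum + ((β' 1).sum * (γ' 1).sum + (β' 2).sum * (γ' 0).sum) = _
  rw [f0, f1, f2, g0, g1, g2, h0, h1, h2, k0, k1, k2]
  ring

end

end Pool.Agent.R461.TB
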