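import Pool.Agent.W353.SP.NMain
import Pool.Agent.R461.UR.Defs

/-! Bessel's inequality for mean values over primes. -/

set_option autoImplicit false

namespace Pool.Agent.R461.TB

open Complex Filter Topology NumberField IsDedekindDomain Polynomial
  Pool.Agent.W401.Cheb Pool.Agent.W540.BE Pool.Agent.W353.L1 Pool.Agent.W353.AT
open Pool.Agent.W353.SP
open Pool.Agent.W353.PV (tF Eig alp pick_spec)

section
variable {K : Type} [Field K] [NumberField K]

theorem EN_nonneg (n : ℕ) {f : HeightOneSpectrum (𝓞 K) → ℝ} (hf : ∀ v, 0 ≤ f v) :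
    0 ≤ EN K n f :=
  div_nonneg (Finset.sum_nonneg fun v _ => hf v) (Nat.cast_nonneg _)

theorem EN_expand (n : ℕ) {κ : Type} (S : Finset κ) (c : κ → ℝ)
    (u : κ → HeightOneSpectrum (𝓞 K) → ℝ) (w : HeightOneSpectrum (𝓞 K) → ℝ) :
    EN K n (fun v => (w v - ∑ k ∈ S, c k * u k v) ^ 2) =
      EN K n (fun v => w v * w v) - 2 * (∑ k ∈ S, c k * EN K n (fun v => w v * u k v)) +
        ∑ k ∈ S, ∑ k' ∈ S, c k * c k' * EN K n (fun v => u k v * u k' v) := by
  have e1 : ∀ v, (w v - ∑ k ∈ S, c k * u k v) ^ 2 = w v * w v -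
      2 * (∑ k ∈ S, c k * (w v * u k v)) + ∑ k ∈ S, ∑ k' ∈ S, c k * c k' * (u k v * u k' v) := by
    intro v
    have h1 : ∑ k ∈ S, c k * (w v * u k v) = w v * ∑ k ∈ S, c k * u k v := by
      rw [Finset.mul_sum]
      exact Finset.sum_congr rfl fun k _ => by ring
    have h2 : ∑ k ∈ S, ∑ k' ∈ S, c k * c k' * (u k v * u k' v) =
        (∑ k ∈ S, c k * u k v) * ∑ k ∈ S, c k * u k v := by
      rw [Finset.sum_mul_sum]
      exact Finset.sum_congr rfl fun k _ => Finset.sum_congr rfl fun k' _ => by ring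
    rw [h1, h2]
    ring
  have e2 : ∀ (a : κ → ℝ) (f : κ → HeightOneSpectrum (𝓞 K) → ℝ),
      ∑ v ∈ upto K n, ∑ k ∈ S, a k * f k v = ∑ k ∈ S, a k * ∑ v ∈ upto K n, f k v := by
    intro a f
    rw [Finset.sum_comm]
    exact Finset.sum_congr rfl fun k _ => by rw [Finset.mul_sum]
  unfold EN
  simp only [e1]
  rw [Finset.sum_add_distrib, Finset.sum_sub_distrib, ← Finset.mul_sum, e2, Finset.sum_comm,
    add_div, sub_div]
  congr 1
  · congr 1
    rw [mul_div_assoc, Finset.sum_div]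
    congr 1
    exact Finset.sum_congr rfl fun k _ => by rw [mul_div_assoc]
  · rw [Finset.sum_div]
    refine Finset.sum_congr rfl fun k _ => ?_
    rw [Finset.sum_comm, Finset.sum_div]
    refine Finset.sum_congr rfl fun k' _ => ?_
    rw [← Finset.mul_sum, mul_div_assoc]

/-- **Bessel's inequality.** -/
theorem bessel {κ : Type} (S : Finset κ) (u : κ → HeightOneSpectrum (𝓞 K) → ℝ)
    (hu : ∀ k, Bd (u k)) {w : HeightOneSpectrum (𝓞 K) → ℝ} (hw : Bd w) {e : ℝ} (he : 0 < e)
    (h0 : ∀ k k', k ≠ k' → Tendsto (fun n => EN K n fun v => u k v * u k' v) atTop (𝓝 0))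
    (h1 : ∀ k, ∀ η : ℝ, 0 < η → ∀ᶠ n in atTop, (EN K n fun v => u k v * u k v) ≤ e + η)
    {η : ℝ} (hη : 0 < η) :
    ∀ᶠ n in atTop, ∑ k ∈ S, (EN K n fun v => w v * u k v) ^ 2 ≤
      e * (EN K n fun v => w v * w v) + η := by
  classical
  -- bounds for the coefficients
  have hM : ∃ M : ℝ, 0 < M ∧ ∀ᶠ i in atTop, ∀ k ∈ S, |EN K i fun v => w v * u k v| ≤ M := by
    have hex : ∀ k, ∃ B : ℝ, ∀ᶠ i in atTop, |EN K i fun v => w v * u k v| ≤ B := by
      intro k
      obtain ⟨B, hB⟩ := hw.mul (hu k)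
      exact ⟨_, (mnN K).bound hB⟩
    choose B hB using hex
    refine ⟨1 + ∑ k ∈ S, |B k|, by positivity, ?_⟩
    rw [Filter.eventually_all_finset]
    intro k hk
    filter_upwards [hB k] with i hi
    refine hi.trans ((le_abs_self _).trans ?_)
    have := Finset.single_le_sum (f := fun k => |B k|) (fun k _ => abs_nonneg (B k)) hk
    linarith
  obtain ⟨M, hM0, hM⟩ := hM
  set n : ℝ := (S.card : ℝ) + 1 with hn
  have hn0 : 0 < n := by positivity
  set θ : ℝ := η * e / (n ^ 2 * M ^ 2) with hθ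
  have hθ0 : 0 < θ := by positivity
  have hoff : ∀ᶠ i in atTop, ∀ k ∈ S, ∀ k' ∈ S, k ≠ k' → |EN K i fun v => u k v * u k' v| ≤ θ := by
    rw [Filter.eventually_all_finset]
    intro k hk
    rw [Filter.eventually_all_finset]
    intro k' hk'
    by_cases hkk : k = k'
    · filter_upwards with i hne
      exact absurd hkk hne
    · filter_upwards [(Metric.tendsto_nhds.1 (h0 k k' hkk)) θ hθ0] with i hi _
      rw [Real.dist_eq, sub_zero] at hi
      exact hi.le
  have hdiag : ∀ᶠ i in atTop, ∀ k ∈ S, (EN K i fun v => u k v * u k v) ≤ e + θ := by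
    rw [Filter.eventually_all_finset]
    intro k _
    exact h1 k θ hθ0
  -- the expansion
  have hexp : ∀ i : ℕ, 0 ≤ (EN K i fun v => w v * w v) -
      2 * e⁻¹ * (∑ k ∈ S, (EN K i fun v => w v * u k v) ^ 2) +
      e⁻¹ ^ 2 * ∑ k ∈ S, ∑ k' ∈ S, (EN K i fun v => w v * u k v) *
        (EN K i fun v => w v * u k' v) * (EN K i fun v => u k v * u k' v) := by
    intro i
    have h2 := EN_expand (K := K) i S (fun k => e⁻¹ * EN K i fun v => w v * u k v) u w
    have h3 : 0 ≤ EN K i (fun v => (w v - ∑ k ∈ S, (e⁻¹ * EN K i fun v => w v * u k v) *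
        u k v) ^ 2) := EN_nonneg i fun v => sq_nonneg _
    rw [h2] at h3
    refine h3.trans (le_of_eq ?_)
    congr 1
    · congr 1
      rw [mul_assoc, Finset.mul_sum (s := S) (a := e⁻¹)]
      congr 1
      exact Finset.sum_congr rfl fun k _ => by ring
    · rw [Finset.mul_sum]
      refine Finset.sum_congr rfl fun k _ => ?_
      rw [Finset.mul_sum]
      exact Finset.sum_congr rfl fun k' _ => by ring
  filter_upwards [hM, hoff, hdiag] with i g2 g3 g4
  have g1 := hexp i
  set x : κ → ℝ := fun k => EN K i fun v => w v * u k v with hx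
  set Q : ℝ := ∑ k ∈ S, x k ^ 2 with hQ
  have hD : ∑ k ∈ S, ∑ k' ∈ S, x k * x k' * (EN K i fun v => u k v * u k' v) ≤
      e * Q + η * e := by
    have hterm : ∀ k ∈ S, ∀ k' ∈ S, x k * x k' * (EN K i fun v => u k v * u k' v) ≤
        (if k = k' then e * x k ^ 2 else 0) + M ^ 2 * θ := by
      intro k hk k' hk'
      split_ifs with hkk
      · subst hkk
        have hxk : x k ^ 2 ≤ M ^ 2 := by
          rw [← sq_abs]
          exact pow_le_pow_left₀ (abs_nonneg _) (g2 k hk) 2
        calc x k * x k * (EN K i fun v => u k v * u k v)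
            = x k ^ 2 * (EN K i fun v => u k v * u k v) := by ring
          _ ≤ x k ^ 2 * (e + θ) := mul_le_mul_of_nonneg_left (g4 k hk) (sq_nonneg _)
          _ = e * x k ^ 2 + x k ^ 2 * θ := by ring
          _ ≤ _ := by
              have := mul_le_mul_of_nonneg_right hxk hθ0.le
              linarith
      · rw [zero_add]
        refine (le_abs_self _).trans ?_
        rw [abs_mul, abs_mul]
        have h2 : |x k| * |x k'| ≤ M ^ 2 := by
          rw [sq]
          exact mul_le_mul (g2 k hk) (g2 k' hk') (abs_nonneg _) hM0.le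
        exact mul_le_mul h2 (g3 k hk k' hk' hkk) (abs_nonneg _) (by positivity)
    have hsum := Finset.sum_le_sum fun k hk => Finset.sum_le_sum fun k' hk' => hterm k hk k' hk'
    refine hsum.trans ?_
    have e1 : ∑ k ∈ S, ∑ k' ∈ S, ((if k = k' then e * x k ^ 2 else 0) + M ^ 2 * θ) =
        e * Q + (S.card : ℝ) ^ 2 * (M ^ 2 * θ) := by
      have e2 : ∀ k ∈ S, ∑ k' ∈ S, ((if k = k' then e * x k ^ 2 else 0) + M ^ 2 * θ) =
          e * x k ^ 2 + (S.card : ℝ) * (M ^ 2 * θ) := by
        intro k hk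
        rw [Finset.sum_add_distrib, Finset.sum_ite_eq, if_pos hk, Finset.sum_const, nsmul_eq_mul]
      rw [Finset.sum_congr rfl e2, Finset.sum_add_distrib, ← Finset.mul_sum, Finset.sum_const,
        nsmul_eq_mul]
      ring
    rw [e1]
    have e3 : (S.card : ℝ) ^ 2 * (M ^ 2 * θ) ≤ n ^ 2 * (M ^ 2 * θ) := by
      refine mul_le_mul_of_nonneg_right ?_ (by positivity)
      exact pow_le_pow_left₀ (Nat.cast_nonneg _) (by rw [hn]; linarith) 2
    have e4 : n ^ 2 * (M ^ 2 * θ) = η * e := by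
      rw [hθ]
      field_simp
    linarith
  have h5 : 0 ≤ (EN K i fun v => w v * w v) - 2 * e⁻¹ * Q + e⁻¹ ^ 2 * (e * Q + η * e) := by
    have := mul_le_mul_of_nonneg_left hD (by positivity : 0 ≤ e⁻¹ ^ 2)
    linarith
  have h6 : e * ((EN K i fun v => w v * w v) - 2 * e⁻¹ * Q + e⁻¹ ^ 2 * (e * Q + η * e)) =
      e * (EN K i fun v => w v * w v) - Q + η := by
    field_simp
    ring
  have h7 := mul_nonneg he.le h5
  rw [h6] at h7
  linarith

end

end Pool.Agent.R461.TB
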