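import Pool.Agent.R461.TB.Bessel
import Pool.Agent.R461.TB.Kun

/-! Bessel's inequality for the defects of the products with the members of a family. -/

set_option autoImplicit false

namespace Pool.Agent.R461.TB

open Complex Filter Topology NumberField IsDedekindDomain Polynomial
  Pool.Agent.W401.Cheb Pool.Agent.W540.BE Pool.Agent.W353.L1 Pool.Agent.W353.AT
open Pool.Agent.W353.SP
open Pool.Agent.W353.EF (IsFrobenius cone)
open Pool.Agent.W353.PV (tF Eig alp pick_spec one_lt_norm)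
open Pool.Agent.H126V.Taub (LA)

section
variable {K : Type} [Field K] [NumberField K]

/-- the absolute norm as a real number -/
noncomputable def qq (v : HeightOneSpectrum (𝓞 K)) : ℝ := (Ideal.absNorm v.asIdeal : ℝ)

theorem qq_pos (v : HeightOneSpectrum (𝓞 K)) : 0 < qq v := by
  have := one_lt_norm v
  unfold qq
  linarith

theorem trace_gen {n : ℕ} {X : Set (MvPolynomial (Fin n) (𝓞 K))} {d i N : ℕ} (hi : i ≤ 2 * d)
    {v : HeightOneSpectrum (𝓞 K)} {α : Fin N → ℂ} (hα : IsFrobenius X d i v α) :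
    (∑ j, α j) = ((qq v ^ ((i : ℝ) / 2) * tF X d i N K v : ℝ) : ℂ) := by
  have hα' : Eig X d i v α := hα
  have h3 : Eig X d i v (alp X d i N K v) := pick_spec ⟨α, hα'⟩
  have h4 := congrArg Multiset.sum (hα'.unique' hi h3)
  change ∑ j, α j = ∑ j, alp X d i N K v j at h4
  have hq0 : (0 : ℝ) < (Ideal.absNorm v.asIdeal : ℝ) := qq_pos v
  have htr : ((tF X d i N K v : ℝ) : ℂ) = (∑ j, alp X d i N K v j) *
      ((Ideal.absNorm v.asIdeal : ℕ) : ℂ) ^ (-((((i : ℝ) / 2 : ℝ)) : ℂ)) :=
    tr_eq (w := (i : ℝ) / 2) (α := alp X d i N K) (fun j => h3.norm j) (h3.im hi)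
  have hpow : (((Ideal.absNorm v.asIdeal : ℝ) ^ ((i : ℝ) / 2) : ℝ) : ℂ) =
      ((Ideal.absNorm v.asIdeal : ℕ) : ℂ) ^ ((((i : ℝ) / 2 : ℝ)) : ℂ) := by
    rw [Complex.ofReal_cpow hq0.le, Complex.ofReal_natCast]
  have hqC : ((Ideal.absNorm v.asIdeal : ℕ) : ℂ) ≠ 0 := by
    exact_mod_cast hq0.ne'
  rw [h4, Complex.ofReal_mul, htr]
  unfold qq
  rw [hpow, mul_comm (∑ j, alp X d i N K v j) _, ← mul_assoc, ← Complex.cpow_add _ _ hqC,
    add_neg_cancel, Complex.cpow_zero, one_mul]

/-- the normalised trace on `H¹` -/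
noncomputable def nt (V : Var K) (v : HeightOneSpectrum (𝓞 K)) : ℝ := tF V.X V.d 1 V.N₁ K v

/-- the normalised trace on `H²` -/
noncomputable def nt2 (V : Var K) (v : HeightOneSpectrum (𝓞 K)) : ℝ := tF V.X V.d 2 V.N₂ K v

theorem abs_nt (V : Var K) (v : HeightOneSpectrum (𝓞 K)) : |nt V v| ≤ V.N₁ := abs_tr_le _ _ _

theorem bd_nt (V : Var K) : Bd (nt V) := ⟨V.N₁, abs_nt V⟩

theorem bd_nt2 (V : Var K) : Bd (nt2 V) := ⟨V.N₂, fun _ => abs_tr_le _ _ _⟩

theorem a_eq (V : Var K) {v : HeightOneSpectrum (𝓞 K)} (hv : v ∉ V.R) :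
    V.a v = ((qq v ^ ((1 : ℝ) / 2) * nt V v : ℝ) : ℂ) := by
  obtain ⟨α, h1, h2⟩ := V.trace₁ v hv
  have := V.one_le
  have h3 := trace_gen (by omega) h1
  rw [Nat.cast_one] at h3
  rw [h2]
  exact h3

theorem b_eq (V : Var K) {v : HeightOneSpectrum (𝓞 K)} (hv : v ∉ V.R) :
    V.b v = ((qq v * nt2 V v : ℝ) : ℂ) := by
  obtain ⟨α, h1, h2⟩ := V.trace₂ v hv
  have := V.one_le
  have h3 := trace_gen (by omega) h1
  have h4 : (((2 : ℕ) : ℝ) / 2) = 1 := by norm_num
  rw [h4, Real.rpow_one] at h3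
  rw [h2]
  exact h3

theorem half_half (v : HeightOneSpectrum (𝓞 K)) :
    qq v ^ ((1 : ℝ) / 2) * qq v ^ ((1 : ℝ) / 2) = qq v := by
  rw [← Real.rpow_add (qq_pos v)]
  norm_num

theorem aa_eq (X Y : Var K) {v : HeightOneSpectrum (𝓞 K)} (hX : v ∉ X.R) (hY : v ∉ Y.R) :
    X.a v * Y.a v = ((qq v * (nt X v * nt Y v) : ℝ) : ℂ) := by
  rw [a_eq X hX, a_eq Y hY, ← Complex.ofReal_mul]
  congr 1
  have h := half_half v
  calc qq v ^ ((1 : ℝ) / 2) * nt X v * (qq v ^ ((1 : ℝ) / 2) * nt Y v) =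
      (qq v ^ ((1 : ℝ) / 2) * qq v ^ ((1 : ℝ) / 2)) * (nt X v * nt Y v) := by ring
    _ = _ := by rw [h]

/-- Künneth for the normalised traces -/
theorem kunneth' {Z X Y : Var K} (h : IsProduct Z X Y) {v : HeightOneSpectrum (𝓞 K)}
    (hZ : v ∉ Z.R) (hX : v ∉ X.R) (hY : v ∉ Y.R) :
    nt2 Z v = nt2 X v + nt X v * nt Y v + nt2 Y v := by
  have h1 := kunneth h hZ hX hY
  rw [b_eq Z hZ, b_eq X hX, b_eq Y hY, aa_eq X Y hX hY, ← Complex.ofReal_add,
    ← Complex.ofReal_add] at h1
  have h2 := Complex.ofReal_injective h1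
  have h3 := (qq_pos v).ne'
  have h4 : qq v * nt2 Z v = qq v * (nt2 X v + nt X v * nt Y v + nt2 Y v) := by
    rw [h2]
    ring
  exact mul_left_cancel₀ h3 h4

theorem EN_sub (n : ℕ) (f g : HeightOneSpectrum (𝓞 K) → ℝ) :
    EN K n (fun v => f v - g v) = EN K n f - EN K n g := by
  unfold EN
  rw [Finset.sum_sub_distrib, sub_div]

theorem EN_add (n : ℕ) (f g : HeightOneSpectrum (𝓞 K) → ℝ) :
    EN K n (fun v => f v + g v) = EN K n f + EN K n g := by
  unfold EN
  rw [Finset.sum_add_distrib, add_div]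

theorem EN_smul (n : ℕ) (c : ℝ) (f : HeightOneSpectrum (𝓞 K) → ℝ) :
    EN K n (fun v => c * f v) = c * EN K n f := (mnN K).smul c f n

theorem EN_change {f g : HeightOneSpectrum (𝓞 K) → ℝ} (hf : Bd f) (hg : Bd g)
    (R : Finset (HeightOneSpectrum (𝓞 K))) (h : ∀ v, v ∉ R → f v = g v) :
    Tendsto (fun n => EN K n f - EN K n g) atTop (𝓝 0) := by
  have hb : Bd fun v => f v - g v := by
    obtain ⟨B, hB⟩ := hf
    obtain ⟨B', hB'⟩ := hg
    exact ⟨B + B', fun v => (abs_sub _ _).trans (add_le_add (hB v) (hB' v))⟩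
  have hfin : {v | f v - g v ≠ 0}.Finite := by
    refine R.finite_toSet.subset fun v hv => ?_
    by_contra hv'
    exact hv (sub_eq_zero.2 (h v hv'))
  refine ((mnN K).fin _ hb hfin).congr fun n => ?_
  exact EN_sub n f g

theorem avg_EN (R : Finset (HeightOneSpectrum (𝓞 K))) {b : HeightOneSpectrum (𝓞 K) → ℂ}
    {ψ : HeightOneSpectrum (𝓞 K) → ℝ} (hψ : Bd ψ)
    (h : ∀ v, v ∉ R → b v = ((qq v * ψ v : ℝ) : ℂ)) :
    Tendsto (fun T => average 1 R b T - EN K T ψ) atTop (𝓝 0) := by
  have h1 := LA_EN R (φ := fun v => (b v).re / (Ideal.absNorm v.asIdeal : ℝ) ^ 1) hψ fun v hv => by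
    rw [h v hv, Complex.ofReal_re, pow_one]
    exact mul_div_cancel_left₀ _ (qq_pos v).ne'
  refine h1.congr fun T => ?_
  rw [average_eq]

/-- the average of the product of the normalised traces -/
theorem excess_EN {Z X Y : Var K} (h : IsProduct Z X Y) :
    Tendsto (fun T => excess Z X Y T - EN K T fun v => nt X v * nt Y v) atTop (𝓝 0) := by
  classical
  have h1 := avg_EN Z.R (bd_nt2 Z) fun v hv => b_eq Z hv
  have h2 := avg_EN X.R (bd_nt2 X) fun v hv => b_eq X hv
  have h3 := avg_EN Y.R (bd_nt2 Y) fun v hv => b_eq Y hv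
  have hbd : Bd fun v => nt2 X v + nt X v * nt Y v + nt2 Y v :=
    ((bd_nt2 X).add ((bd_nt X).mul (bd_nt Y))).add (bd_nt2 Y)
  have h4 := EN_change (bd_nt2 Z) hbd (Z.R ∪ X.R ∪ Y.R) fun v hv => by
    simp only [Finset.mem_union, not_or] at hv
    exact kunneth' h hv.1.1 hv.1.2 hv.2
  have h5 := ((h1.add h4).sub h2).sub h3
  simp only [add_zero, sub_zero] at h5
  refine h5.congr fun T => ?_
  rw [EN_add T (fun v => nt2 X v + nt X v * nt Y v) (nt2 Y),
    EN_add T (nt2 X) fun v => nt X v * nt Y v]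
  unfold excess tateAverage
  ring

variable {κ : Type} {Y : κ → Var K} {e : κ → ℝ}

theorem fam_diag (hfam : IsFamily Y e) (b : κ) :
    Tendsto (fun T => EN K T fun v => nt (Y b) v * nt (Y b) v) atTop (𝓝 (e b)) := by
  have h1 := (hfam.1 b).2
  have h2 := avg_EN (Y b).R ((bd_nt (Y b)).mul (bd_nt (Y b)))
    (b := fun v => (Y b).a v * (Y b).a v) fun v hv => aa_eq (Y b) (Y b) hv hv
  have h3 := h1.sub h2
  rw [sub_zero] at h3
  exact h3.congr fun T => sub_sub_cancel _ _

theorem fam_off (hfam : IsFamily Y e) {b b' : κ} (hb : b ≠ b') :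
    Tendsto (fun T => EN K T fun v => nt (Y b) v * nt (Y b') v) atTop (𝓝 0) := by
  classical
  have h1 := hfam.2 b b' hb
  have h2 := avg_EN ((Y b).R ∪ (Y b').R) ((bd_nt (Y b)).mul (bd_nt (Y b')))
    (b := fun v => (Y b).a v * (Y b').a v) fun v hv => by
      rw [Finset.mem_union, not_or] at hv
      exact aa_eq (Y b) (Y b') hv.1 hv.2
  have h1' : Tendsto (average 1 ((Y b).R ∪ (Y b').R) fun v => (Y b).a v * (Y b').a v) atTop
      (𝓝 0) := by
    convert h1 using 2
  have h3 := h1'.sub h2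
  rw [sub_zero] at h3
  exact h3.congr fun T => sub_sub_cancel _ _

variable {X : Var K} {n : κ →₀ ℕ} {R' : Finset (HeightOneSpectrum (𝓞 K))}

/-- the trace on the copies of the `H¹(Y b)` -/
noncomputable def comb (Y : κ → Var K) (n : κ →₀ ℕ) (v : HeightOneSpectrum (𝓞 K)) : ℝ :=
  ∑ b ∈ n.support, (n b : ℝ) * nt (Y b) v

theorem rest_bound (h : Contains X Y n R') {v : HeightOneSpectrum (𝓞 K)} (hv : v ∉ R') :
    |nt X v - comb Y n v| ≤ rest X Y n := by
  classical
  obtain ⟨α, γ, hα, hγ, hle⟩ := h v hv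
  have hdX := X.one_le
  obtain ⟨C, hC⟩ := Multiset.le_iff_exists_add.1 hle
  have hs : (∑ j, α j) = (∑ b ∈ n.support, (n b : ℂ) * ∑ j, γ b j) + C.sum := by
    have h1 := congrArg Multiset.sum hC
    rw [Multiset.sum_add] at h1
    have h2 : (∑ b ∈ n.support, n b • Finset.univ.val.map (γ b)).sum =
        ∑ b ∈ n.support, (n b : ℂ) * ∑ j, γ b j := by
      rw [Multiset.sum_sum]
      refine Finset.sum_congr rfl fun b _ => ?_
      rw [Multiset.sum_nsmul, nsmul_eq_mul]
      rfl
    rw [h2] at h1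
    exact h1
  have hcard : (C.card : ℝ) = rest X Y n := by
    have h1 := congrArg Multiset.card hC
    rw [Multiset.card_add, Multiset.card_map, Multiset.card_sum] at h1
    simp only [Multiset.card_nsmul, Multiset.card_map] at h1
    have h2 : ∀ m : ℕ, (Finset.univ : Finset (Fin m)).val.card = m := by
      intro m
      have : (Finset.univ : Finset (Fin m)).card = m := by simp
      exact this
    simp only [h2] at h1
    unfold rest
    rw [h1]
    push_cast
    ring
  have hnorm : ‖C.sum‖ ≤ rest X Y n * qq v ^ ((1 : ℝ) / 2) := by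
    obtain ⟨β, hβ⟩ := hα
    have h1 : ∀ z ∈ C, ‖z‖ = qq v ^ ((1 : ℝ) / 2) := by
      intro z hz
      have h2 : z ∈ Finset.univ.val.map α := by
        rw [hC]
        exact Multiset.mem_add.2 (Or.inr hz)
      rw [← hβ.1] at h2
      have h3 := hβ.2.1 1 z h2
      rw [Nat.cast_one] at h3
      exact h3
    refine (norm_multiset_sum_le C).trans ?_
    have h4 : (C.map fun z => ‖z‖).sum = C.card • qq v ^ ((1 : ℝ) / 2) := by
      rw [Multiset.map_congr rfl h1, Multiset.map_const', Multiset.sum_replicate]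
    rw [h4, nsmul_eq_mul, hcard]
  have e1 := trace_gen (by omega) hα
  rw [Nat.cast_one] at e1
  have e2 : ∀ b ∈ n.support, (∑ j, γ b j) = ((qq v ^ ((1 : ℝ) / 2) * nt (Y b) v : ℝ) : ℂ) := by
    intro b hb
    have hd := (Y b).one_le
    have h3 := trace_gen (by omega) (hγ b hb)
    rw [Nat.cast_one] at h3
    exact h3
  have e3 : C.sum = ((qq v ^ ((1 : ℝ) / 2) * (nt X v - comb Y n v) : ℝ) : ℂ) := by
    have h5 : C.sum = (∑ j, α j) - ∑ b ∈ n.support, (n b : ℂ) * ∑ j, γ b j := by
      rw [hs]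
      ring
    rw [h5, e1, Finset.sum_congr rfl fun b hb => by rw [e2 b hb]]
    unfold comb nt
    rw [mul_sub, Finset.mul_sum]
    push_cast
    congr 1
    exact Finset.sum_congr rfl fun b _ => by ring
  rw [e3, Complex.norm_real, Real.norm_eq_abs, abs_mul,
    abs_of_pos (Real.rpow_pos_of_pos (qq_pos v) _), mul_comm] at hnorm
  exact le_of_mul_le_mul_right hnorm (Real.rpow_pos_of_pos (qq_pos v) _)

open Classical in
/-- the trace on the complement -/
noncomputable def ww (X : Var K) (Y : κ → Var K) (n : κ →₀ ℕ)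
    (R' : Finset (HeightOneSpectrum (𝓞 K))) (v : HeightOneSpectrum (𝓞 K)) : ℝ :=
  if v ∈ R' then 0 else nt X v - comb Y n v

theorem bd_comb (Y : κ → Var K) (n : κ →₀ ℕ) : Bd (comb Y n) := by
  refine ⟨∑ b ∈ n.support, (n b : ℝ) * (Y b).N₁, fun v => ?_⟩
  unfold comb
  refine (Finset.abs_sum_le_sum_abs _ _).trans (Finset.sum_le_sum fun b _ => ?_)
  rw [abs_mul, abs_of_nonneg (Nat.cast_nonneg _)]
  exact mul_le_mul_of_nonneg_left (abs_nt _ _) (Nat.cast_nonneg _)

theorem ww_sq (h : Contains X Y n R') (v : HeightOneSpectrum (𝓞 K)) :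
    ww X Y n R' v * ww X Y n R' v ≤ rest X Y n ^ 2 := by
  unfold ww
  split_ifs with hv
  · rw [mul_zero]
    exact sq_nonneg _
  · rw [← sq, ← sq_abs]
    exact pow_le_pow_left₀ (abs_nonneg _) (rest_bound h hv) 2

theorem bd_ww (h : Contains X Y n R') : Bd (ww X Y n R') := by
  refine ⟨|rest X Y n|, fun v => ?_⟩
  unfold ww
  split_ifs with hv
  · rw [abs_zero]
    exact abs_nonneg _
  · exact (rest_bound h hv).trans (le_abs_self _)

theorem EN_comb (n : κ →₀ ℕ) (f : HeightOneSpectrum (𝓞 K) → ℝ) (T : ℕ) :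
    EN K T (fun v => comb Y n v * f v) =
      ∑ b ∈ n.support, (n b : ℝ) * EN K T fun v => nt (Y b) v * f v := by
  have e1 : (fun v => comb Y n v * f v) =
      fun v => ∑ b ∈ n.support, (n b : ℝ) * (nt (Y b) v * f v) := by
    funext v
    unfold comb
    rw [Finset.sum_mul]
    exact Finset.sum_congr rfl fun b _ => by ring
  rw [e1]
  unfold EN
  rw [Finset.sum_comm, Finset.sum_div]
  refine Finset.sum_congr rfl fun b _ => ?_
  rw [← Finset.mul_sum, mul_div_assoc]

/-- the defect is the mean value of the product with the trace on the complement -/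
theorem defect_EN (hfam : IsFamily Y e) (h : Contains X Y n R') {Z : Var K} {b : κ}
    (hZ : IsProduct Z X (Y b)) :
    Tendsto (fun T => (excess Z X (Y b) T - n b * e b) -
      EN K T fun v => ww X Y n R' v * nt (Y b) v) atTop (𝓝 0) := by
  classical
  have h1 := excess_EN hZ
  have h2 := EN_change (f := fun v => ww X Y n R' v * nt (Y b) v)
    (g := fun v => nt X v * nt (Y b) v - comb Y n v * nt (Y b) v)
    ((bd_ww h).mul (bd_nt (Y b)))
    (by
      obtain ⟨B, hB⟩ := (bd_nt X).mul (bd_nt (Y b))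
      obtain ⟨B', hB'⟩ := (bd_comb Y n).mul (bd_nt (Y b))
      exact ⟨B + B', fun v => (abs_sub _ _).trans (add_le_add (hB v) (hB' v))⟩) R' fun v hv => by
      unfold ww
      rw [if_neg hv]
      ring
  have h3 : Tendsto (fun T => EN K T fun v => comb Y n v * nt (Y b) v) atTop
      (𝓝 (n b * e b)) := by
    have h4 : Tendsto (fun T => ∑ b' ∈ n.support, (n b' : ℝ) * EN K T fun v =>
        nt (Y b') v * nt (Y b) v) atTop
        (𝓝 (∑ b' ∈ n.support, (n b' : ℝ) * (if b' = b then e b else 0))) := by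
      refine tendsto_finsetSum _ fun b' _ => ?_
      by_cases hb : b' = b
      · subst hb
        rw [if_pos rfl]
        exact (fam_diag hfam b').const_mul _
      · rw [if_neg hb]
        exact (fam_off hfam hb).const_mul _
    have h5 : ∑ b' ∈ n.support, (n b' : ℝ) * (if b' = b then e b else 0) = n b * e b := by
      by_cases hb : b ∈ n.support
      · rw [Finset.sum_eq_single_of_mem b hb]
        · rw [if_pos rfl]
        · intro b' _ hb'
          rw [if_neg hb', mul_zero]
      · rw [Finset.sum_eq_zero]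
        · have : n b = 0 := by simpa using hb
          rw [this, Nat.cast_zero, zero_mul]
        · intro b' hb'
          have : b' ≠ b := fun h => hb (h ▸ hb')
          rw [if_neg this, mul_zero]
    rw [h5] at h4
    exact h4.congr fun T => (EN_comb n (nt (Y b)) T).symm
  have h6 := (h1.sub h2).add (h3.sub_const (n b * e b))
  simp only [sub_self, add_zero] at h6
  refine h6.congr fun T => ?_
  rw [EN_sub T (fun v => nt X v * nt (Y b) v) fun v => comb Y n v * nt (Y b) v]
  ring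

/-- **Bessel's inequality for the defects.** -/
theorem main (hfam : IsFamily Y e) (h : Contains X Y n R') {Z : κ → Var K}
    (hZ : ∀ b, IsProduct (Z b) X (Y b)) (S : Finset κ) {η : ℝ} (hη : 0 < η) :
    ∀ᶠ T : ℕ in atTop, ∑ b ∈ S, (excess (Z b) X (Y b) T - n b * e b) ^ 2 / e b ≤
      rest X Y n ^ 2 + η := by
  classical
  have he : ∀ b, 0 < e b := fun b => (hfam.1 b).1
  have hse : ∀ b, 0 < √(e b) := fun b => Real.sqrt_pos.2 (he b)
  -- the normalised family
  have hB := bessel (K := K) S (fun b v => (√(e b))⁻¹ * nt (Y b) v)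
    (fun b => by
      obtain ⟨B, hB⟩ := bd_nt (Y b)
      exact ⟨(√(e b))⁻¹ * B, fun v => by
        rw [abs_mul, abs_of_pos (inv_pos.2 (hse b))]
        exact mul_le_mul_of_nonneg_left (hB v) (inv_pos.2 (hse b)).le⟩)
    (bd_ww h) (e := 1) one_pos
    (fun b b' hb => by
      have h1 := (fam_off hfam hb).const_mul ((√(e b))⁻¹ * (√(e b'))⁻¹)
      rw [mul_zero] at h1
      refine h1.congr fun T => ?_
      rw [← EN_smul]
      congr 1
      funext v
      ring)
    (fun b η' hη' => by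
      have h1 := (fam_diag hfam b).const_mul ((√(e b))⁻¹ * (√(e b))⁻¹)
      have h2 : (√(e b))⁻¹ * (√(e b))⁻¹ * e b = 1 := by
        rw [← mul_inv, Real.mul_self_sqrt (he b).le]
        exact inv_mul_cancel₀ (he b).ne'
      rw [h2] at h1
      filter_upwards [h1.eventually_le_const (show 1 < 1 + η' by linarith)] with T hT
      refine le_trans (le_of_eq ?_) hT
      rw [← EN_smul]
      congr 1
      funext v
      ring)
    (show 0 < η / 3 by positivity)
  -- the square of the trace on the complement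
  have h1 : Tendsto (fun T => rest X Y n ^ 2 * EN K T fun _ => 1) atTop (𝓝 (rest X Y n ^ 2)) := by
    have := (mnN K).one.const_mul (rest X Y n ^ 2)
    rwa [mul_one] at this
  have hmono := (mnN K).mono (fun v => ww X Y n R' v * ww X Y n R' v)
    (fun _ => rest X Y n ^ 2 * 1) ((bd_ww h).mul (bd_ww h)) (Bd.const _)
    (fun v => by rw [mul_one]; exact ww_sq h v)
  -- the squares of the defects
  have hsq : Tendsto (fun T => ∑ b ∈ S, ((excess (Z b) X (Y b) T - n b * e b) ^ 2 / e b -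
      (EN K T fun v => ww X Y n R' v * ((√(e b))⁻¹ * nt (Y b) v)) ^ 2)) atTop (𝓝 0) := by
    have h2 : ∀ b ∈ S, Tendsto (fun T => (excess (Z b) X (Y b) T - n b * e b) ^ 2 / e b -
        (EN K T fun v => ww X Y n R' v * ((√(e b))⁻¹ * nt (Y b) v)) ^ 2) atTop (𝓝 0) := by
      intro b _
      have h3 := defect_EN hfam h (hZ b)
      set y : ℕ → ℝ := fun T => EN K T fun v => ww X Y n R' v * nt (Y b) v with hy
      set x : ℕ → ℝ := fun T => excess (Z b) X (Y b) T - n b * e b with hx
      have h4 : ∀ T, (EN K T fun v => ww X Y n R' v * ((√(e b))⁻¹ * nt (Y b) v)) ^ 2 =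
          y T ^ 2 / e b := by
        intro T
        have h5 : (EN K T fun v => ww X Y n R' v * ((√(e b))⁻¹ * nt (Y b) v)) =
            (√(e b))⁻¹ * y T := by
          rw [hy]
          simp only
          rw [← EN_smul]
          congr 1
          funext v
          ring
        rw [h5, mul_pow, inv_pow, Real.sq_sqrt (he b).le]
        ring
      obtain ⟨B, hB⟩ := (bd_ww h).mul (bd_nt (Y b))
      have h6 : ∀ᶠ T in atTop, |y T| ≤ 2 * |B| := (mnN K).bound hB
      have h7 : Tendsto (fun T => (x T - y T) * (x T - y T) + 2 * ((x T - y T) * y T)) atTop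
          (𝓝 0) := by
        have h8 : Tendsto (fun T => (x T - y T) * y T) atTop (𝓝 0) := by
          refine squeeze_zero_norm' (a := fun T => |x T - y T| * (2 * |B|)) ?_ ?_
          · filter_upwards [h6] with T hT
            rw [Real.norm_eq_abs, abs_mul]
            exact mul_le_mul_of_nonneg_left hT (abs_nonneg _)
          · have := h3.abs.mul_const (2 * |B|)
            rwa [abs_zero, zero_mul] at this
        have h9 := (h3.mul h3).add (h8.const_mul 2)
        rw [mul_zero, mul_zero, add_zero] at h9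
        exact h9
      have h10 := h7.div_const (e b)
      rw [zero_div] at h10
      refine h10.congr fun T => ?_
      rw [h4]
      ring
    have h3 := tendsto_finsetSum S h2
    rwa [Finset.sum_const_zero] at h3
  filter_upwards [hB, hmono, h1.eventually_le_const (show rest X Y n ^ 2 <
    rest X Y n ^ 2 + η / 3 by linarith), hsq.eventually_le_const (show (0 : ℝ) < η / 3 by
    positivity)] with T g1 g2 g3 g4
  rw [Finset.sum_sub_distrib] at g4
  have g5 : (EN K T fun _ => rest X Y n ^ 2 * 1) = rest X Y n ^ 2 * EN K T fun _ => 1 :=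
    EN_smul T _ _
  rw [g5] at g2
  linarith

/-- the number of the indices with large defects -/
theorem count_large (hfam : IsFamily Y e) (h : Contains X Y n R') {Z : κ → Var K}
    (hZ : ∀ b, IsProduct (Z b) X (Y b)) {δ : ℝ} (hδ : 0 < δ) :
    {b : κ | ∀ᶠ T : ℕ in atTop, δ * √(e b) ≤ |excess (Z b) X (Y b) T - n b * e b|}.Finite ∧
    ({b : κ | ∀ᶠ T : ℕ in atTop, δ * √(e b) ≤ |excess (Z b) X (Y b) T - n b * e b|}.ncard : ℝ) *
      δ ^ 2 ≤ rest X Y n ^ 2 := by
  classical
  have he : ∀ b, 0 < e b := fun b => (hfam.1 b).1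
  set P : Set κ := {b : κ | ∀ᶠ T : ℕ in atTop,
    δ * √(e b) ≤ |excess (Z b) X (Y b) T - n b * e b|} with hP
  have key : ∀ S : Finset κ, (S : Set κ) ⊆ P → (S.card : ℝ) * δ ^ 2 ≤ rest X Y n ^ 2 := by
    intro S hS
    refine le_of_forall_pos_le_add fun η hη => ?_
    have h1 : ∀ᶠ T : ℕ in atTop, ∀ b ∈ S,
        δ * √(e b) ≤ |excess (Z b) X (Y b) T - n b * e b| := by
      rw [Filter.eventually_all_finset]
      intro b hb
      exact hS hb
    obtain ⟨T, h2, h3⟩ := (h1.and (main hfam h hZ S hη)).exists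
    refine le_trans ?_ h3
    have h4 : (S.card : ℝ) * δ ^ 2 = ∑ b ∈ S, δ ^ 2 := by
      rw [Finset.sum_const, nsmul_eq_mul]
    rw [h4]
    refine Finset.sum_le_sum fun b hb => ?_
    rw [le_div_iff₀ (he b)]
    have h5 := pow_le_pow_left₀ (by positivity) (h2 b hb) 2
    rwa [mul_pow, Real.sq_sqrt (he b).le, sq_abs] at h5
  have hfin : P.Finite := by
    by_contra hinf
    have hinf' : P.Infinite := hinf
    obtain ⟨m, hm⟩ := exists_nat_gt (rest X Y n ^ 2 / δ ^ 2)
    obtain ⟨S, hS, hcard⟩ := hinf'.exists_subset_card_eq m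
    have h1 := key S hS
    rw [hcard] at h1
    rw [div_lt_iff₀ (by positivity)] at hm
    linarith
  refine ⟨hfin, ?_⟩
  have h1 := key hfin.toFinset (by rw [Set.Finite.coe_toFinset])
  rwa [← Set.ncard_eq_toFinset_card P hfin] at h1

/-- limits along subsequences -/
theorem subseq [Countable κ] (hfam : IsFamily Y e) (h : Contains X Y n R') {Z : κ → Var K}
    (hZ : ∀ b, IsProduct (Z b) X (Y b)) (T : ℕ → ℕ) (hT : Tendsto T atTop atTop) :
    ∃ φ : ℕ → ℕ, StrictMono φ ∧ ∃ y : κ → ℝ,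
      (∀ b, Tendsto (fun j => excess (Z b) X (Y b) (T (φ j))) atTop (𝓝 (n b * e b + y b))) ∧
      Summable (fun b => y b ^ 2 / e b) ∧ ∑' b, y b ^ 2 / e b ≤ rest X Y n ^ 2 := by
  classical
  have he : ∀ b, 0 < e b := fun b => (hfam.1 b).1
  have hbd : ∀ b, ∃ C : ℝ, ∀ᶠ j in atTop,
      |excess (Z b) X (Y b) (T j) - n b * e b| ≤ C := by
    intro b
    refine ⟨√((rest X Y n ^ 2 + 1) * e b), ?_⟩
    filter_upwards [hT.eventually (main hfam h hZ {b} one_pos)] with j hj
    rw [Finset.sum_singleton, div_le_iff₀ (he b)] at hj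
    exact Real.abs_le_sqrt hj
  obtain ⟨φ, hφ, y, hy⟩ := diag (fun b j => excess (Z b) X (Y b) (T j) - n b * e b) hbd
  have hTφ : Tendsto (fun j => T (φ j)) atTop atTop := hT.comp hφ.tendsto_atTop
  have hsum : ∀ S : Finset κ, ∑ b ∈ S, y b ^ 2 / e b ≤ rest X Y n ^ 2 := by
    intro S
    refine le_of_forall_pos_le_add fun η hη => ?_
    refine le_of_tendsto (tendsto_finsetSum S fun b _ => ((hy b).pow 2).div_const (e b)) ?_
    exact hTφ.eventually (main hfam h hZ S hη)
  have hs : Summable fun b => y b ^ 2 / e b :=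
    summable_of_sum_le (fun b => div_nonneg (sq_nonneg _) (he b).le) hsum
  refine ⟨φ, hφ, y, fun b => ?_, hs, hs.tsum_le_of_sum_le hsum⟩
  have h1 := (hy b).const_add (n b * e b)
  exact h1.congr fun j => by ring

end

end Pool.Agent.R461.TB
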